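import Pool.Agent.Lib.MP_c7af3c_ag.EDGE.Iface
import Pool.Agent.Lib.MP_c7af3c_ag.SHARP.H54.Root

/-!
# MP_c7af3c_ag, project EDGE: the point is not on a line over `k` (helper54)
-/

set_option autoImplicit false

namespace Pool.Agent.Edge.H54

open MvPolynomial WithZero Pool.Agent.Gen Pool.Agent.Sharp Pool.Agent.Lines.H75

/-- polynomial expressions with coefficients in a subfield -/
theorem coeff_lineP_mem {Ω : Type} [Field Ω] (k : Subfield Ω) {n : ℕ}
    (F : MvPolynomial (Fin (n + 1)) Ω) (hF : ∀ I, coeff I F ∈ k) {u w : Fin (n + 1) → Ω}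
    (hu : ∀ i, u i ∈ k) (hw : ∀ i, w i ∈ k) : ∀ i, (lineP F u w).coeff i ∈ k := by
  have h1 : lineP F u w ∈ Polynomial.lifts k.subtype := by
    unfold lineP
    rw [aeval_def, eval₂_eq']
    refine sum_mem fun I _ => mul_mem ?_ (prod_mem fun i _ => pow_mem ?_ _)
    · exact Polynomial.C'_mem_lifts ⟨⟨_, hF I⟩, rfl⟩
    · exact add_mem (Polynomial.C'_mem_lifts ⟨⟨_, hu i⟩, rfl⟩)
        (mul_mem (Polynomial.X_mem_lifts _) (Polynomial.C'_mem_lifts ⟨⟨_, hw i⟩, rfl⟩))
  intro i
  rw [Polynomial.lifts_iff_coeff_lifts] at h1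
  obtain ⟨a, ha⟩ := h1 i
  rw [← ha]
  exact a.2

/-- the point is not a multiple of a vector over `k` -/
theorem not_smul {Ω : Type} [Field Ω] {k : Subfield Ω} {n c e : ℕ}
    {d : Fin c → ℕ} {D : DSys Ω n c d} {x : Fin (n + 1) → Ω} {j0 : Fin (n + 1)}
    {ε : (Unit ⊕ (Fin e ⊕ Fin e)) ⊕ Fin c ≃ Fin (n + 1)} (h : EdgeP k D x j0 e ε)
    (z : Fin (n + 1) → Ω) (hz : ∀ i, z i ∈ k) (t : Ω) : x ≠ t • z := by
  obtain ⟨i0, hi0⟩ := h.xk
  intro ht
  have h1 : t * z j0 = 1 := by rw [← h.hj0, ht]; rfl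
  have h2 : t = (z j0)⁻¹ := eq_inv_of_mul_eq_one_left h1
  apply hi0
  rw [ht, Pi.smul_apply, smul_eq_mul, h2]
  exact k.mul_mem (k.inv_mem (hz j0)) (hz i0)

theorem nl : NlStatement := by
  intro Ω _ _ k n c e d D x j0 ε h u w hu hw a b hx
  have hmul := not_smul h
  have ha : a ≠ 0 := by
    rintro rfl
    exact hmul w hw b (by rw [hx, zero_smul, zero_add])
  have hli : LinearIndependent Ω ![x, w] := by
    rw [LinearIndependent.pair_iff]
    intro s t hst
    by_contra hne
    by_cases hs : s = 0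
    · rw [hs, zero_smul, zero_add] at hst
      have ht : t ≠ 0 := fun ht => hne ⟨hs, ht⟩
      have hw0 : w = 0 := (smul_eq_zero.1 hst).resolve_left ht
      exact hmul u hu a (by rw [hx, hw0, smul_zero, add_zero])
    · refine hmul w hw (-(s⁻¹ * t)) ?_
      have h1 : x = s⁻¹ • (s • x) := by rw [smul_smul, inv_mul_cancel₀ hs, one_smul]
      rw [h1, eq_neg_of_add_eq_zero_left hst, smul_neg, smul_smul, neg_smul]
  obtain ⟨m, hm⟩ := h.hno w hli
  have hpe : ∀ t : Ω, (lineP (D.F m) x w).eval t =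
      a ^ d m * (lineP (D.F m) u w).eval ((b + t) / a) := by
    intro t
    rw [H54.lineP_eval, H54.lineP_eval, ← H54.eval_smul_form (D.hom m)]
    have h1 : (fun p => x p + t * w p) = fun p => a * (u p + (b + t) / a * w p) := by
      funext p
      rw [hx, Pi.add_apply, Pi.smul_apply, Pi.smul_apply, smul_eq_mul, smul_eq_mul]
      field_simp
      ring
    rw [h1]
  have hp := coeff_lineP_mem k (D.F m) (h.kF m) hu hw
  have hp0 : lineP (D.F m) u w ≠ 0 := by
    intro h0
    apply hm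
    apply Polynomial.funext
    intro t
    rw [hpe, h0, Polynomial.eval_zero, mul_zero, Polynomial.eval_zero]
  have hroot : (lineP (D.F m) u w).eval (b / a) = 0 := by
    have h1 := hpe 0
    rw [H54.lineP_eval, add_zero] at h1
    have h2 : eval (fun p => x p + 0 * w p) (D.F m) = 0 := by
      have : (fun p => x p + 0 * w p) = x := by funext p; ring
      rw [this]
      exact h.h0 m
    rw [h2] at h1
    exact (mul_eq_zero.1 h1.symm).resolve_left (pow_ne_zero _ ha)
  have hT := h.kalg (b / a) _ hp0 hp hroot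
  refine hmul (u + (b / a) • w) (fun i => k.add_mem (hu i) (k.mul_mem hT (hw i))) a ?_
  rw [hx, smul_add, smul_smul, mul_div_cancel₀ _ ha]

end Pool.Agent.Edge.H54
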