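import Pool.Agent.Lib.MP_c7af3c_ag.EDGE.H54.Plane

/-!
# MP_c7af3c_ag, project EDGE: module PLANE (helper54)
-/

set_option autoImplicit false

namespace Pool.Agent.Edge.H54

open MvPolynomial WithZero Pool.Agent.Gen Pool.Agent.Sharp Pool.Agent.Lines.H75

section

variable {Ω : Type} [Field Ω] {k : Subfield Ω} {n c : ℕ} {d : Fin c → ℕ}
  {D : DSys Ω n c d} {x : Fin (n + 1) → Ω} {j0 : Fin (n + 1)} {e : ℕ}
  {ε : (Unit ⊕ (Fin e ⊕ Fin e)) ⊕ Fin c ≃ Fin (n + 1)} (O : OM D x j0 e ε)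

/-- the map `A ↦ V(λ_f A)` -/
noncomputable def kap (t : Fin 3 → Fin (n + 1)) (P : Fin 3 → Fin (n + 1) → Ω)
    (f : Fin (n + 1)) : KI Ω n d →+ O.Q :=
  AddMonoidHom.mk' (fun A => O.phi f A - P 1 f • O.phi (t 1) A - P 2 f • O.phi (t 2) A)
    fun A A' => by
      simp only [map_add, smul_add]
      abel

theorem kap_apply (t : Fin 3 → Fin (n + 1)) (P : Fin 3 → Fin (n + 1) → Ω)
    (f : Fin (n + 1)) (A : KI Ω n d) :
    kap O t P f A = O.phi f A - P 1 f • O.phi (t 1) A - P 2 f • O.phi (t 2) A := rfl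

/-- the vectors vanish -/
theorem kap_zero [CharZero Ω] (hPL : PlemStatement) (hE : EdgeP k D x j0 e ε) (he : 1 ≤ e)
    {t : Fin 3 → Fin (n + 1)}
    {P : Fin 3 → Fin (n + 1) → Ω} (ht0 : t 0 = j0) (hPk : ∀ i f, P i f ∈ k)
    (hPt : ∀ i j, P i (t j) = if i = j then 1 else 0)
    (hxP : ∀ f, x f = ∑ i, P i f * x (t i))
    (hxk : ∀ a : Fin 3 → Ω, (∀ i, a i ∈ k) → ∑ i, a i * x (t i) = 0 → a = 0)
    (f : Fin (n + 1)) (A : KI Ω n d) : kap O t P f A = 0 := by
  have hfam : ∀ A : Fin e → KI Ω n d, (Sum.elim (fun j => O.phi (t 1) (A j))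
      fun j => O.phi (t 2) (A j)) = O.fam A (fun _ => t 1) fun _ => t 2 := fun A => rfl
  have e0 : ∀ s : Fin e, Function.update (fun _ : Fin e => t 2) s (t 2) = fun _ => t 2 :=
    fun s => Function.update_eq_self s _
  have e1 : ∀ s : Fin e, Function.update (fun _ : Fin e => t 1) s (t 1) = fun _ => t 1 :=
    fun s => Function.update_eq_self s _
  have p12 : P 1 (t 2) = 0 := by rw [hPt, if_neg (by decide)]
  have p22 : P 2 (t 2) = 1 := by rw [hPt, if_pos rfl]
  have p11 : P 1 (t 1) = 1 := by rw [hPt, if_pos rfl]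
  have p21 : P 2 (t 1) = 0 := by rw [hPt, if_neg (by decide)]
  refine hPL Ω O.Q (KI Ω n d) e O.dim he O.ω (O.phi (t 1)) (O.phi (t 2)) (kap O t P f)
    ?_ ?_ ?_ A
  · intro A s
    have h1 := TS_key O hE ht0 hPk hPt hxP hxk A (fun _ => t 1) (fun _ => t 2) s f (t 2)
    have h2 := O.TS_self A (fun _ => t 1) (fun _ => t 2) s (t 2)
    unfold OM.TS at h1 h2
    rw [e0 s, e1 s, O.fam_update_left, p12, p22, mul_one, zero_mul, sub_zero] at h1
    rw [e0 s, O.fam_update_left] at h2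
    have h3 : O.ω (Function.update (O.fam A (fun _ => t 1) fun _ => t 2) (Sum.inl s)
        (O.phi (t 1) (A s))) = O.ω (O.fam A (fun _ => t 1) fun _ => t 2) := by
      rw [← O.fam_update_left, e1 s]
    rw [hfam, kap_apply, sub_sub, O.ω.map_update_sub, O.ω.map_update_add, O.ω.map_update_smul,
      O.ω.map_update_smul, h1, h2, h3]
    simp only [smul_eq_mul]
    ring
  · intro A s
    have h1 := TS_key O hE ht0 hPk hPt hxP hxk A (fun _ => t 1) (fun _ => t 2) s (t 1) f
    have h2 := O.TS_self A (fun _ => t 1) (fun _ => t 2) s (t 1)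
    unfold OM.TS at h1 h2
    rw [e0 s, e1 s, O.fam_update_right, p11, p21, one_mul, mul_zero, sub_zero] at h1
    rw [e1 s, O.fam_update_right] at h2
    have h3 : O.ω (Function.update (O.fam A (fun _ => t 1) fun _ => t 2) (Sum.inr s)
        (O.phi (t 2) (A s))) = O.ω (O.fam A (fun _ => t 1) fun _ => t 2) := by
      rw [← O.fam_update_right, e0 s]
    rw [hfam, kap_apply, sub_sub, O.ω.map_update_sub, O.ω.map_update_add, O.ω.map_update_smul,
      O.ω.map_update_smul, h1, h2, h3]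
    simp only [smul_eq_mul]
    ring
  · obtain ⟨A, hA⟩ := plane_nz O hE ht0 hPk hPt hxP hxk
    exact ⟨A, hA⟩

/-- the form `λ_f` -/
theorem lam_eq (hE : EdgeP k D x j0 e ε) {t : Fin 3 → Fin (n + 1)}
    {P : Fin 3 → Fin (n + 1) → Ω} (ht0 : t 0 = j0)
    (hxP : ∀ f, x f = ∑ i, P i f * x (t i)) (f : Fin (n + 1)) :
    (X f - ∑ i, C (P i f) * X (t i) : MvPolynomial (Fin (n + 1)) Ω) =
      lf x j0 f - P 1 f • lf x j0 (t 1) - P 2 f • lf x j0 (t 2) := by
  have h1 : C (x f) = C (P 0 f) + C (P 1 f) * C (x (t 1)) +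
      (C (P 2 f) * C (x (t 2)) : MvPolynomial (Fin (n + 1)) Ω) := by
    rw [← C_mul, ← C_mul, ← C_add, ← C_add]
    congr 1
    rw [hxP f, Fin.sum_univ_three, ht0, hE.hj0, mul_one]
  unfold lf
  rw [Fin.sum_univ_three, ht0, smul_eq_C_mul, smul_eq_C_mul, h1]
  ring

theorem VT_mulT_sub (A : TP Ω n c) (l l' : MvPolynomial (Fin (n + 1)) Ω) :
    VT D x (mulT A (l - l')) = VT D x (mulT A l) - VT D x (mulT A l') := by
  rw [← map_sub]
  congr 1
  funext m
  simp only [mulT, Pi.sub_apply, mul_sub]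

end

theorem plane : PlaneStatement := by
  classical
  intro hNL hPL hOM Ω _ _ k n c e d D x j0 ε he hn hE
  obtain ⟨Q, hdim, hQ, ω, hω⟩ := hOM Ω n c e d D x j0 hE.hj0 hE.h0 hn ε
  let O : OM D x j0 e ε := ⟨hE.hj0, hE.h0, Q, hdim, hQ, ω, hω⟩
  obtain ⟨t, P, ht0, hPk, hPt, hxP⟩ := frame O hE he
  have hxk := frame_ind hNL hE hPk hxP
  refine ⟨t, P, ht0, ?_, hPk, hPt, hxP, hxk, ?_, ?_, ?_⟩
  · intro i j hij
    by_contra hne
    have h1 := hPt i j
    rw [← hij, hPt, if_pos rfl, if_neg hne] at h1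
    exact one_ne_zero h1
  · intro A hA f
    rw [lam_eq hE ht0 hxP]
    -- the forms with one monomial
    have hmono : ∀ (m : Fin c) (J : Fin (n + 1) →₀ ℕ), J.degree + 1 = d m →
        VT D x (mulT (Pi.single m (monomial J 1) : TP Ω n c)
          (lf x j0 f - P 1 f • lf x j0 (t 1) - P 2 f • lf x j0 (t 2))) = 0 := by
      intro m J hJ
      have h1 := kap_zero O hPL hE he ht0 hPk hPt hxP hxk f ⟨_, IT.single (L := Ω) hJ⟩
      have h2 := congrArg (fun u : O.Q => (u : Fin (n + 1) → Ω)) h1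
      rw [kap_apply] at h2
      rw [VT_mulT_sub, VT_mulT_sub, VT_mulT_smul, VT_mulT_smul]
      exact h2
    have h1 : A = ∑ m, ∑ J ∈ (A m).support,
        coeff J (A m) • (Pi.single m (monomial J 1) : TP Ω n c) := by
      funext m'
      rw [Finset.sum_apply, Finset.sum_eq_single m']
      · rw [Finset.sum_apply]
        conv_lhs => rw [(A m').as_sum]
        refine Finset.sum_congr rfl fun J _ => ?_
        rw [Pi.smul_apply, Pi.single_eq_same, smul_monomial, smul_eq_mul, mul_one]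
      · intro m _ hm
        rw [Finset.sum_apply]
        refine Finset.sum_eq_zero fun J _ => ?_
        rw [Pi.smul_apply, Pi.single_eq_of_ne (Ne.symm hm), smul_zero]
      · intro h; exact absurd (Finset.mem_univ _) h
    have h2 : ∀ l : MvPolynomial (Fin (n + 1)) Ω, mulT A l = ∑ m, ∑ J ∈ (A m).support,
        coeff J (A m) • mulT (Pi.single m (monomial J 1) : TP Ω n c) l := by
      intro l
      funext m'
      conv_lhs => rw [h1]
      simp only [mulT, Finset.sum_apply, Pi.smul_apply, Finset.sum_mul, smul_mul_assoc]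
    rw [h2, map_sum]
    refine Finset.sum_eq_zero fun m _ => ?_
    rw [map_sum]
    refine Finset.sum_eq_zero fun J hJ => ?_
    rw [map_smul, hmono m J (hA m J (mem_support_iff.1 hJ)), smul_zero]
  · intro A hA
    have h1 := TS_mem O hE (fun j => ⟨A j, hA j⟩) (fun _ => t 1) (fun _ => t 2) ⟨0, he⟩
      (t 1) (t 2)
    rw [O.TS_eq] at h1
    have e0 : Function.update (fun _ : Fin e => t 2) ⟨0, he⟩ (t 2) = fun _ => t 2 :=
      Function.update_eq_self _ _
    have e1 : Function.update (fun _ : Fin e => t 1) ⟨0, he⟩ (t 1) = fun _ => t 1 :=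
      Function.update_eq_self _ _
    rwa [e0, e1] at h1
  · obtain ⟨A, hA⟩ := plane_nz O hE ht0 hPk hPt hxP hxk
    refine ⟨fun j => (A j).1, fun j => (A j).2, ?_⟩
    rw [O.TT_eq]
    exact hA

end Pool.Agent.Edge.H54
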