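import Pool.Agent.Lib.MP_c7af3c_ag.EDGE.H54.GenHB
import Pool.Agent.Lib.MP_c7af3c_ag.EDGE.Base

/-!
# MP_c7af3c_ag, project EDGE: the height inequalities for hypersurfaces of degree `3 e + 2` in
`P^(2 e + 1)` in the form of METC and METX (helper54)
-/

set_option autoImplicit false

namespace Pool.Agent.Edge.H54

open MvPolynomial WithZero Pool.Agent.Gen Pool.Agent.Sharp Pool.Agent.Sharp.H54
open Pool.Agent.GenY.H46 Pool.Agent.Sharp.H46
open Pool.Agent.Lines Pool.Agent.Lines.H19

section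

variable {L : Type} [Field L] {n c : ℕ} {d : Fin c → ℕ} (D : DSys L n c d)

/-- lines inside, general numerical condition -/
theorem htlx3 [CharZero L] (x y : Fin (n + 1) → L) (hxy : LinearIndependent L ![x, y])
    (h0 : OnLine x y D.F) (hnum : 3 * n ≤ c + ∑ m, d m + ∑ m, d m * (d m + 1) / 2)
    (S : PlaceSys L) (hS : S.IsProd) (B : S.V → ℕ) (hB : BD S D B) :
    hL S x y ≤ (4 * n + 2) * tot S B := by
  have hSL := H54.lvarx L n c d D x y hxy h0
  have h4 := four L n c d D x y hxy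
  obtain ⟨q, hq⟩ := Nat.exists_eq_add_of_le h4
  refine htlr D x y hxy q hq (∑ m, d m)
    (fun m => Finset.single_le_sum (f := d) (fun _ _ => Nat.zero_le _) (Finset.mem_univ m))
    (by omega) (fun r hr => ?_) S hS B hB
  have h5 : r = 0 := by omega
  subst h5
  omega

end

section

variable {n c : ℕ} (d : Fin c → ℕ)

/-- the height inequality for the lines inside -/
theorem hbLine3 (hnum : 3 * n ≤ c + ∑ m, d m + ∑ m, d m * (d m + 1) / 2)
    (i0 j0 : Fin (n + 1)) : MetC.HB (EL d i0 j0) := by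
  refine ⟨4 * n + 2, fun L _ _ φ D _ z hz S hS _ B hB j => ?_⟩
  obtain ⟨⟨e1, e2, e3, e4⟩, hz0⟩ := (sol_EL d i0 j0 φ D.a z).1 hz
  set x : Fin (n + 1) → L := fun j => z (0, j) with hx
  set y : Fin (n + 1) → L := fun j => z (1, j) with hy
  have hxy : LinearIndependent L ![x, y] := frame_li e1 e2 e3 e4
  have hp : plu x y i0 j0 = 1 := by
    unfold plu
    simp only [hx, hy, e1, e2, e4, one_mul, zero_mul, sub_zero]
  have key := htlx3 (toDSysC d D) x y hxy hz0 hnum S hS B (bd_toDSysC d D S B hB)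
  have hzj : z j = plu x y (if j.1 = 0 then j.2 else i0) (if j.1 = 0 then j0 else j.2) := by
    obtain ⟨a, k⟩ := j
    rcases fin2_cases a with rfl | rfl
    · simp only [if_true]
      unfold plu
      simp only [hx, hy, e2, e4, mul_one, zero_mul, sub_zero]
    · simp only [one_ne_zero, if_false]
      unfold plu
      simp only [hx, hy, e1, e3, one_mul, mul_zero, sub_zero]
  rw [hzj]
  refine (h1_plu_le S hS hp _ _).trans (key.trans (le_of_eq ?_))
  unfold tot
  push_cast
  ring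

/-- the height inequality for the points which are not on lines inside, from HBE -/
theorem hbPt3 (j0 : Fin (n + 1)) (hHB : HBE n c d j0) : MetX.HB (EP d j0) (EX d j0) := by
  obtain ⟨A, hA⟩ := hHB
  refine ⟨A, fun L _ _ φ D _ z hz hex S hS _ B hB j => ?_⟩
  obtain ⟨hz0, hzF⟩ := (sol_EP d j0 φ D.a z).1 hz
  refine (ht_single_le j0 S hS.fin z hz0 j).trans ?_
  have hno : NoLine (toDSysC d D) z := by
    intro y hy
    by_contra hc
    push Not at hc
    obtain ⟨y', hy', hy''⟩ := normalise hz0 hy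
    refine hex y' ((sol_EX d j0 φ D.a z y').2 ⟨hy', fun m => ?_⟩)
    exact hy'' _ _ (formOf_hom D.a m) (hc m)
  exact hA L (toDSysC d D) (toDSysC_comm d D) z hz0 hzF hno S hS B (bd_toDSysC d D S B hB)

end

/-- the borderline hypersurfaces -/
theorem hbAll_edge (hE : ∀ e : ℕ, 1 ≤ e → ∀ j0 : Fin (2 * e + 1 + 1),
    HBE (2 * e + 1) 1 (fun _ => 3 * e + 2) j0) (e : ℕ) (he : 1 ≤ e) :
    HBAll (2 * e + 1) (fun _ : Fin 1 => 3 * e + 2) := by
  refine ⟨fun i0 j0 => hbLine3 _ ?_ i0 j0, fun j0 => hbPt3 _ j0 (hE e he j0)⟩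
  simp only [Finset.univ_unique, Fin.default_eq_zero, Finset.sum_const, Finset.card_singleton,
    smul_eq_mul, one_mul]
  have h1 : 3 * e + 2 ≤ (3 * e + 2) * (3 * e + 2 + 1) / 2 := by
    rw [Nat.le_div_iff_mul_le (by norm_num)]
    nlinarith
  omega

end Pool.Agent.Edge.H54
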