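import Pool.Agent.Lib.MP_c7af3c_ag.EDGE.H54.PlaneA

/-!
# MP_c7af3c_ag, project EDGE: the plane, part 2 (helper54)
-/

set_option autoImplicit false

namespace Pool.Agent.Edge.H54

open MvPolynomial WithZero Pool.Agent.Gen Pool.Agent.Sharp Pool.Agent.Lines.H75

section

variable {Ω : Type} [Field Ω] {k : Subfield Ω} {n c : ℕ} {d : Fin c → ℕ}
  {D : DSys Ω n c d} {x : Fin (n + 1) → Ω} {j0 : Fin (n + 1)} {e : ℕ}
  {ε : (Unit ⊕ (Fin e ⊕ Fin e)) ⊕ Fin c ≃ Fin (n + 1)} (O : OM D x j0 e ε)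

theorem tau_eq (A : Fin e → KI Ω n d) (i i' : Fin e → Fin (n + 1)) (s : Fin e)
    (p q r : Fin (n + 1)) : tau D x j0 ε (fun j => (A j).1) i i' s p q r =
      x p * O.TS A i i' s q r - x q * O.TS A i i' s p r + x r * O.TS A i i' s p q := by
  rw [O.TS_eq, O.TS_eq, O.TS_eq]
  rfl

theorem TS_mem (hE : EdgeP k D x j0 e ε) (A : Fin e → KI Ω n d)
    (i i' : Fin e → Fin (n + 1)) (s : Fin e) (a b : Fin (n + 1)) : O.TS A i i' s a b ∈ k := by
  have h1 := hE.tau_mem (fun j => (A j).1) (fun j => (A j).2) i i' s j0 a b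
  rw [tau_eq O, O.TS_j0_left, O.TS_j0_left, hE.hj0] at h1
  simpa using h1

include O in
/-- the frame of the plane -/
theorem frame (hE : EdgeP k D x j0 e ε) (he : 1 ≤ e) :
    ∃ (t : Fin 3 → Fin (n + 1)) (P : Fin 3 → Fin (n + 1) → Ω), t 0 = j0 ∧
      (∀ i f, P i f ∈ k) ∧ (∀ i j, P i (t j) = if i = j then 1 else 0) ∧
      (∀ f, x f = ∑ i, P i f * x (t i)) := by
  obtain ⟨A, i, i', hA, hTT⟩ := hE.pairs
  let A' : Fin e → KI Ω n d := fun j => ⟨A j, hA j⟩
  let s0 : Fin e := ⟨0, he⟩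
  set T : Fin (n + 1) → Fin (n + 1) → Ω := fun a b => O.TS A' i i' s0 a b with hT
  have hTk : ∀ a b, T a b ∈ k := fun a b => TS_mem O hE A' i i' s0 a b
  have hself : ∀ a, T a a = 0 := fun a => O.TS_self A' i i' s0 a
  have hswap : ∀ a b, T b a = - T a b := fun a b => O.TS_swap A' i i' s0 a b
  have hl : ∀ a, T j0 a = 0 := fun a => O.TS_j0_left A' i i' s0 a
  have hr : ∀ a, T a j0 = 0 := fun a => O.TS_j0_right A' i i' s0 a
  have hne : T (i s0) (i' s0) ≠ 0 := by
    rw [hT]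
    change O.TS A' i i' s0 (i s0) (i' s0) ≠ 0
    rw [O.TS_eq, Function.update_eq_self, Function.update_eq_self]
    exact hTT
  have htau : ∀ p q r, x p * T q r - x q * T p r + x r * T p q ∈ k := by
    intro p q r
    have h1 := hE.tau_mem (fun j => (A' j).1) (fun j => (A' j).2) i i' s0 p q r
    rwa [tau_eq O] at h1
  set b := i s0
  set b' := i' s0
  refine ⟨![j0, b, b'], ![fun f => (x b * T b' f - x b' * T b f + x f * T b b') / T b b',
    fun f => - T b' f / T b b', fun f => T b f / T b b'], rfl, ?_, ?_, ?_⟩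
  · intro j f
    fin_cases j
    · exact k.div_mem (htau b b' f) (hTk _ _)
    · exact k.div_mem (k.neg_mem (hTk _ _)) (hTk _ _)
    · exact k.div_mem (hTk _ _) (hTk _ _)
  · intro j l
    fin_cases j <;> fin_cases l <;>
      simp only [Fin.zero_eta, Fin.mk_one, Fin.reduceFinMk, Matrix.cons_val_zero,
        Matrix.cons_val_one, Matrix.cons_val, hself, hr, hE.hj0, hswap b b', if_true] <;>
      field_simp <;> simp
  · intro f
    rw [Fin.sum_univ_three]
    simp only [Matrix.cons_val_zero, Matrix.cons_val_one, Matrix.cons_val, hE.hj0]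
    field_simp
    ring

/-- a trivector relation -/
theorem x_triv (T : Fin (n + 1) → Fin (n + 1) → Ω) (p q r f : Fin (n + 1)) :
    x p * (x q * T r f - x r * T q f + x f * T q r) -
      x q * (x p * T r f - x r * T p f + x f * T p r) +
      x r * (x p * T q f - x q * T p f + x f * T p q) -
      x f * (x p * T q r - x q * T p r + x r * T p q) = 0 := by
  ring

/-- the determinants are those of the plane -/
theorem TS_key (hE : EdgeP k D x j0 e ε) {t : Fin 3 → Fin (n + 1)}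
    {P : Fin 3 → Fin (n + 1) → Ω} (ht0 : t 0 = j0) (hPk : ∀ i f, P i f ∈ k)
    (hPt : ∀ i j, P i (t j) = if i = j then 1 else 0)
    (hxP : ∀ f, x f = ∑ i, P i f * x (t i))
    (hxk : ∀ a : Fin 3 → Ω, (∀ i, a i ∈ k) → ∑ i, a i * x (t i) = 0 → a = 0)
    (A : Fin e → KI Ω n d) (i i' : Fin e → Fin (n + 1)) (s : Fin e) (r f : Fin (n + 1)) :
    O.TS A i i' s r f = (P 1 r * P 2 f - P 1 f * P 2 r) * O.TS A i i' s (t 1) (t 2) := by
  have h1 := triv k x t P hPk hPt hxP hxk
    (fun p q r => x p * O.TS A i i' s q r - x q * O.TS A i i' s p r + x r * O.TS A i i' s p q)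
    (fun p q r => by
      have h1 := hE.tau_mem (fun j => (A j).1) (fun j => (A j).2) i i' s p q r
      rwa [tau_eq O] at h1)
    (fun p q r f => x_triv (O.TS A i i' s) p q r f) r f
  rw [ht0] at h1
  simp only [O.TS_j0_left, hE.hj0, mul_zero, sub_zero, add_zero, one_mul] at h1
  exact h1

theorem frame_ind (hNL : NlStatement) [CharZero Ω] (hE : EdgeP k D x j0 e ε)
    {t : Fin 3 → Fin (n + 1)} {P : Fin 3 → Fin (n + 1) → Ω} (hPk : ∀ i f, P i f ∈ k)
    (hxP : ∀ f, x f = ∑ i, P i f * x (t i)) :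
    ∀ a : Fin 3 → Ω, (∀ i, a i ∈ k) → ∑ i, a i * x (t i) = 0 → a = 0 := by
  intro a ha hsum
  have hnl := hNL Ω k n c e d D x j0 ε hE
  rw [Fin.sum_univ_three] at hsum
  by_contra hne
  obtain ⟨i, hi⟩ := Function.ne_iff.1 hne
  rw [Pi.zero_apply] at hi
  have hx : ∀ f, x f = P 0 f * x (t 0) + P 1 f * x (t 1) + P 2 f * x (t 2) := by
    intro f
    rw [hxP f, Fin.sum_univ_three]
  fin_cases i
  · have hi' : a 0 ≠ 0 := hi
    refine hnl (fun f => P 1 f - a 1 / a 0 * P 0 f) (fun f => P 2 f - a 2 / a 0 * P 0 f)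
      (fun f => k.sub_mem (hPk _ _) (k.mul_mem (k.div_mem (ha _) (ha _)) (hPk _ _)))
      (fun f => k.sub_mem (hPk _ _) (k.mul_mem (k.div_mem (ha _) (ha _)) (hPk _ _)))
      (x (t 1)) (x (t 2)) ?_
    funext f
    rw [hx f]
    have h0 : x (t 0) = -(a 1 / a 0 * x (t 1)) - a 2 / a 0 * x (t 2) := by
      field_simp
      linear_combination hsum
    rw [Pi.add_apply, Pi.smul_apply, Pi.smul_apply, smul_eq_mul, smul_eq_mul, h0]
    ring
  · have hi' : a 1 ≠ 0 := hi
    refine hnl (fun f => P 0 f - a 0 / a 1 * P 1 f) (fun f => P 2 f - a 2 / a 1 * P 1 f)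
      (fun f => k.sub_mem (hPk _ _) (k.mul_mem (k.div_mem (ha _) (ha _)) (hPk _ _)))
      (fun f => k.sub_mem (hPk _ _) (k.mul_mem (k.div_mem (ha _) (ha _)) (hPk _ _)))
      (x (t 0)) (x (t 2)) ?_
    funext f
    rw [hx f]
    have h0 : x (t 1) = -(a 0 / a 1 * x (t 0)) - a 2 / a 1 * x (t 2) := by
      field_simp
      linear_combination hsum
    rw [Pi.add_apply, Pi.smul_apply, Pi.smul_apply, smul_eq_mul, smul_eq_mul, h0]
    ring
  · have hi' : a 2 ≠ 0 := hi
    refine hnl (fun f => P 0 f - a 0 / a 2 * P 2 f) (fun f => P 1 f - a 1 / a 2 * P 2 f)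
      (fun f => k.sub_mem (hPk _ _) (k.mul_mem (k.div_mem (ha _) (ha _)) (hPk _ _)))
      (fun f => k.sub_mem (hPk _ _) (k.mul_mem (k.div_mem (ha _) (ha _)) (hPk _ _)))
      (x (t 0)) (x (t 1)) ?_
    funext f
    rw [hx f]
    have h0 : x (t 2) = -(a 0 / a 2 * x (t 0)) - a 1 / a 2 * x (t 1) := by
      field_simp
      linear_combination hsum
    rw [Pi.add_apply, Pi.smul_apply, Pi.smul_apply, smul_eq_mul, smul_eq_mul, h0]
    ring

/-- some determinant of the plane is not zero -/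
theorem plane_nz (hE : EdgeP k D x j0 e ε) {t : Fin 3 → Fin (n + 1)}
    {P : Fin 3 → Fin (n + 1) → Ω} (ht0 : t 0 = j0) (hPk : ∀ i f, P i f ∈ k)
    (hPt : ∀ i j, P i (t j) = if i = j then 1 else 0)
    (hxP : ∀ f, x f = ∑ i, P i f * x (t i))
    (hxk : ∀ a : Fin 3 → Ω, (∀ i, a i ∈ k) → ∑ i, a i * x (t i) = 0 → a = 0) :
    ∃ A : Fin e → KI Ω n d, O.ω (O.fam A (fun _ => t 1) fun _ => t 2) ≠ 0 := by
  classical
  obtain ⟨A, i, i', hA, hTT⟩ := hE.pairs
  let A' : Fin e → KI Ω n d := fun j => ⟨A j, hA j⟩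
  have hTT' : O.ω (O.fam A' i i') ≠ 0 := by
    rw [← O.TT_eq]
    exact hTT
  refine ⟨A', ?_⟩
  have key : ∀ S : Finset (Fin e), ∃ i i' : Fin e → Fin (n + 1),
      (∀ s ∈ S, i s = t 1 ∧ i' s = t 2) ∧ O.ω (O.fam A' i i') ≠ 0 := by
    intro S
    induction S using Finset.induction_on with
    | empty => exact ⟨i, i', by simp, hTT'⟩
    | insert s S hs ih =>
      obtain ⟨i, i', h1, h2⟩ := ih
      refine ⟨Function.update i s (t 1), Function.update i' s (t 2), ?_, ?_⟩
      · intro r hr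
        by_cases h : r = s
        · subst h
          rw [Function.update_self, Function.update_self]
          exact ⟨rfl, rfl⟩
        · rw [Function.update_of_ne h, Function.update_of_ne h]
          exact h1 r ((Finset.mem_insert.1 hr).resolve_left h)
      · have h3 := TS_key O hE ht0 hPk hPt hxP hxk A' i i' s (i s) (i' s)
        intro h0
        change O.TS A' i i' s (t 1) (t 2) = 0 at h0
        rw [h0, mul_zero] at h3
        unfold OM.TS at h3
        rw [Function.update_eq_self, Function.update_eq_self] at h3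
        exact h2 h3
  obtain ⟨i, i', h1, h2⟩ := key Finset.univ
  have e1 : i = fun _ => t 1 := funext fun s => (h1 s (Finset.mem_univ _)).1
  have e2 : i' = fun _ => t 2 := funext fun s => (h1 s (Finset.mem_univ _)).2
  rwa [e1, e2] at h2

end

end Pool.Agent.Edge.H54
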