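import Pool.Agent.Lib.MP_c7af3c_ag.EDGE.H54.Nl

/-!
# MP_c7af3c_ag, project EDGE: the plane, part 1 (helper54)
-/

set_option autoImplicit false

namespace Pool.Agent.Edge.H54

open MvPolynomial WithZero Pool.Agent.Gen Pool.Agent.Sharp Pool.Agent.Lines.H75

/-! ### trivectors divisible by the point -/

/-- A trivector over `k` divisible by `x` (the relation `hT`) is a multiple of the one of the
plane: the case where the first index is `t 0`. -/
theorem triv {Ω : Type} [Field Ω] (k : Subfield Ω) {I : Type} (x : I → Ω) (t : Fin 3 → I)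
    (P : Fin 3 → I → Ω) (hPk : ∀ i f, P i f ∈ k)
    (hPt : ∀ i j, P i (t j) = if i = j then 1 else 0)
    (hxP : ∀ f, x f = ∑ i, P i f * x (t i))
    (hxk : ∀ a : Fin 3 → Ω, (∀ i, a i ∈ k) → ∑ i, a i * x (t i) = 0 → a = 0)
    (T : I → I → I → Ω) (hTk : ∀ p q r, T p q r ∈ k)
    (hT : ∀ p q r f, x p * T q r f - x q * T p r f + x r * T p q f - x f * T p q r = 0)
    (r f : I) : T (t 0) r f = (P 1 r * P 2 f - P 1 f * P 2 r) * T (t 0) (t 1) (t 2) := by
  have key : ∀ i p q r f,
      P i p * T q r f - P i q * T p r f + P i r * T p q f - P i f * T p q r = 0 := by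
    intro i p q r f
    have h1 := hxk (fun i => P i p * T q r f - P i q * T p r f + P i r * T p q f -
      P i f * T p q r) (fun i => k.sub_mem (k.add_mem (k.sub_mem (k.mul_mem (hPk _ _) (hTk _ _ _))
        (k.mul_mem (hPk _ _) (hTk _ _ _))) (k.mul_mem (hPk _ _) (hTk _ _ _)))
        (k.mul_mem (hPk _ _) (hTk _ _ _))) (by
        have h2 := hT p q r f
        rw [hxP p, hxP q, hxP r, hxP f] at h2
        simp only [Fin.sum_univ_three] at h2 ⊢
        linear_combination h2)
    exact congrFun h1 i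
  have h1 := key 1 (t 0) (t 1) r f
  have h2 := key 2 (t 0) (t 1) (t 2) f
  have h3 := key 2 (t 0) (t 1) (t 2) r
  rw [hPt, hPt, if_neg (by decide), if_pos rfl] at h1
  rw [hPt, hPt, hPt, if_neg (by decide), if_neg (by decide), if_pos rfl] at h2 h3
  linear_combination -h1 + P 1 r * h2 - P 1 f * h3

/-! ### the maps to the `2 e`-dimensional space -/

section

variable {Ω : Type} [Field Ω] {n c : ℕ} {d : Fin c → ℕ}

theorem IT.zero : IT d (0 : TP Ω n c) :=
  ⟨fun m I h => absurd (by rw [Pi.zero_apply, coeff_zero]) h,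
    fun m I => ⟨0, by rw [Pi.zero_apply, coeff_zero, Int.cast_zero]⟩⟩

theorem IT.neg {A : TP Ω n c} (hA : IT d A) : IT d (-A) := by
  constructor
  · intro m I hI
    rw [Pi.neg_apply, coeff_neg] at hI
    exact hA.1 m I fun h => hI (by rw [h, neg_zero])
  · intro m I
    obtain ⟨z, hz⟩ := hA.2 m I
    exact ⟨-z, by rw [Pi.neg_apply, coeff_neg, hz, Int.cast_neg]⟩

variable (Ω n) in
/-- the group of the admissible tuples with integral coefficients -/
def KI (d : Fin c → ℕ) : AddSubgroup (TP Ω n c) where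
  carrier := {A | IT d A}
  zero_mem' := IT.zero
  add_mem' := fun h h' => h.add h'
  neg_mem' := fun h => IT.neg h

variable (D : DSys Ω n c d) (x : Fin (n + 1) → Ω) (j0 : Fin (n + 1))

theorem VT_j0 (hj0 : x j0 = 1) (G : TP Ω n c) : VT D x G j0 = 0 := by
  rw [VT_apply, Finset.sum_apply]
  refine Finset.sum_eq_zero fun m _ => ?_
  rw [DSys.V_apply]
  refine Finset.sum_eq_zero fun I _ => ?_
  rw [hj0, Derivation.map_one_eq_zero, mul_zero]

theorem VT_mulT_add' (A A' : TP Ω n c) (l : MvPolynomial (Fin (n + 1)) Ω) :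
    VT D x (mulT (A + A') l) = VT D x (mulT A l) + VT D x (mulT A' l) := by
  rw [← map_add]
  congr 1
  funext m
  simp only [mulT, Pi.add_apply, add_mul]

theorem lf_j0 (hj0 : x j0 = 1) : lf x j0 j0 = 0 := by
  unfold lf
  rw [hj0, C_1, one_mul, sub_self]

end

section

variable {Ω : Type} [Field Ω] {n c : ℕ} {d : Fin c → ℕ}

/-- the data of the module OMEGA -/
structure OM (D : DSys Ω n c d) (x : Fin (n + 1) → Ω) (j0 : Fin (n + 1)) (e : ℕ)
    (ε : (Unit ⊕ (Fin e ⊕ Fin e)) ⊕ Fin c ≃ Fin (n + 1)) where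
  hj0 : x j0 = 1
  h0 : ∀ m, eval x (D.F m) = 0
  Q : Submodule Ω (Fin (n + 1) → Ω)
  dim : Module.finrank Ω Q = 2 * e
  hQ : ∀ u, u ∈ Q ↔ u j0 = 0 ∧ ∀ m, ∑ p, eval x (pderiv p (D.F m)) * u p = 0
  ω : Q [⋀^(Fin e ⊕ Fin e)]→ₗ[Ω] Ω
  hω : ∀ u : Fin e ⊕ Fin e → Q,
      ω u = Matrix.det (Matrix.of fun a k => colU D x (Sum.elim (fun _ : Unit => x)
        fun s => (u s : Fin (n + 1) → Ω)) j0 k (ε a))

variable {D : DSys Ω n c d} {x : Fin (n + 1) → Ω} {j0 : Fin (n + 1)} {e : ℕ}
  {ε : (Unit ⊕ (Fin e ⊕ Fin e)) ⊕ Fin c ≃ Fin (n + 1)} (O : OM D x j0 e ε)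

theorem OM.mem {A : TP Ω n c} (hA : Adm d A) (f : Fin (n + 1)) :
    VT D x (mulT A (lf x j0 f)) ∈ O.Q :=
  (O.hQ _).2 ⟨VT_j0 D x j0 O.hj0 _,
    grad_mulT D x O.h0 hA (hom_lf x j0 f) (eval_lf x O.hj0 f)⟩

/-- `A ↦ V(A l_f)` -/
noncomputable def OM.phi (f : Fin (n + 1)) : KI Ω n d →+ O.Q :=
  AddMonoidHom.mk' (fun A => ⟨VT D x (mulT A.1 (lf x j0 f)), O.mem A.2.1 f⟩) fun A A' =>
    Subtype.ext (VT_mulT_add' D x A.1 A'.1 _)

theorem OM.coe_phi (f : Fin (n + 1)) (A : KI Ω n d) :
    ((O.phi f A : O.Q) : Fin (n + 1) → Ω) = VT D x (mulT A.1 (lf x j0 f)) := rfl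

theorem OM.phi_j0 (A : KI Ω n d) : O.phi j0 A = 0 := by
  apply Subtype.ext
  rw [O.coe_phi, lf_j0 x j0 O.hj0]
  have h1 : mulT A.1 (0 : MvPolynomial (Fin (n + 1)) Ω) = 0 := by
    funext m
    simp [mulT]
  rw [h1, map_zero]
  rfl

/-- the `2 e` vectors -/
noncomputable def OM.fam (A : Fin e → KI Ω n d) (i i' : Fin e → Fin (n + 1)) :
    Fin e ⊕ Fin e → O.Q :=
  Sum.elim (fun j => O.phi (i j) (A j)) fun j => O.phi (i' j) (A j)

theorem OM.TT_eq (A : Fin e → KI Ω n d) (i i' : Fin e → Fin (n + 1)) :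
    TT D x j0 ε (fun j => (A j).1) i i' = O.ω (O.fam A i i') := by
  rw [O.hω]
  unfold TT
  congr 1
  have h1 : colE D x j0 (fun j => (A j).1) i i' = Sum.elim (fun _ : Unit => x)
      fun s => ((O.fam A i i' s : O.Q) : Fin (n + 1) → Ω) := by
    funext s
    rcases s with _ | (j | j)
    · rfl
    · rfl
    · rfl
  rw [h1]

theorem OM.fam_update_left (A : Fin e → KI Ω n d) (i i' : Fin e → Fin (n + 1)) (s : Fin e)
    (a : Fin (n + 1)) : O.fam A (Function.update i s a) i' =
      Function.update (O.fam A i i') (Sum.inl s) (O.phi a (A s)) := by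
  funext r
  rcases r with r | r
  · by_cases h : r = s
    · subst h
      rw [Function.update_self]
      change O.phi (Function.update i r a r) (A r) = _
      rw [Function.update_self]
    · rw [Function.update_of_ne (by simpa using h)]
      change O.phi (Function.update i s a r) (A r) = _
      rw [Function.update_of_ne h]
      rfl
  · rw [Function.update_of_ne (by simp)]
    rfl

theorem OM.fam_update_right (A : Fin e → KI Ω n d) (i i' : Fin e → Fin (n + 1)) (s : Fin e)
    (a : Fin (n + 1)) : O.fam A i (Function.update i' s a) =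
      Function.update (O.fam A i i') (Sum.inr s) (O.phi a (A s)) := by
  funext r
  rcases r with r | r
  · rw [Function.update_of_ne (by simp)]
    rfl
  · by_cases h : r = s
    · subst h
      rw [Function.update_self]
      change O.phi (Function.update i' r a r) (A r) = _
      rw [Function.update_self]
    · rw [Function.update_of_ne (by simpa using h)]
      change O.phi (Function.update i' s a r) (A r) = _
      rw [Function.update_of_ne h]
      rfl

/-- the determinant with the slot `s` equal to `a, b` -/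
noncomputable def OM.TS (A : Fin e → KI Ω n d) (i i' : Fin e → Fin (n + 1)) (s : Fin e)
    (a b : Fin (n + 1)) : Ω :=
  O.ω (O.fam A (Function.update i s a) (Function.update i' s b))

theorem OM.TS_eq (A : Fin e → KI Ω n d) (i i' : Fin e → Fin (n + 1)) (s : Fin e)
    (a b : Fin (n + 1)) : O.TS A i i' s a b =
      TT D x j0 ε (fun j => (A j).1) (Function.update i s a) (Function.update i' s b) :=
  (O.TT_eq A _ _).symm

theorem OM.TS_j0_left (A : Fin e → KI Ω n d) (i i' : Fin e → Fin (n + 1)) (s : Fin e)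
    (b : Fin (n + 1)) : O.TS A i i' s j0 b = 0 := by
  unfold OM.TS
  rw [O.fam_update_left, O.phi_j0]
  exact O.ω.map_coord_zero (Sum.inl s) (by rw [Function.update_self])

theorem OM.TS_j0_right (A : Fin e → KI Ω n d) (i i' : Fin e → Fin (n + 1)) (s : Fin e)
    (a : Fin (n + 1)) : O.TS A i i' s a j0 = 0 := by
  unfold OM.TS
  rw [O.fam_update_right, O.phi_j0]
  exact O.ω.map_coord_zero (Sum.inr s) (by rw [Function.update_self])

theorem OM.fam_slot (A : Fin e → KI Ω n d) (i i' : Fin e → Fin (n + 1)) (s : Fin e)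
    (a b : Fin (n + 1)) : O.fam A (Function.update i s a) (Function.update i' s b) =
      Function.update (Function.update (O.fam A i i') (Sum.inl s) (O.phi a (A s)))
        (Sum.inr s) (O.phi b (A s)) := by
  rw [O.fam_update_right, O.fam_update_left]

theorem OM.TS_swap (A : Fin e → KI Ω n d) (i i' : Fin e → Fin (n + 1)) (s : Fin e)
    (a b : Fin (n + 1)) : O.TS A i i' s b a = - O.TS A i i' s a b := by
  classical
  unfold OM.TS
  rw [O.fam_slot, O.fam_slot]
  have hne : (Sum.inl s : Fin e ⊕ Fin e) ≠ Sum.inr s := by simp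
  rw [← O.ω.map_swap _ hne]
  congr 1
  funext r
  rw [Function.comp_apply]
  rcases eq_or_ne r (Sum.inl s) with rfl | h1
  · rw [Equiv.swap_apply_left, Function.update_self, Function.update_of_ne hne,
      Function.update_self]
  · rcases eq_or_ne r (Sum.inr s) with rfl | h2
    · rw [Equiv.swap_apply_right, Function.update_self, Function.update_of_ne hne,
        Function.update_self]
    · rw [Equiv.swap_apply_of_ne_of_ne h1 h2, Function.update_of_ne h2, Function.update_of_ne h1,
        Function.update_of_ne h2, Function.update_of_ne h1]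

theorem OM.TS_self (A : Fin e → KI Ω n d) (i i' : Fin e → Fin (n + 1)) (s : Fin e)
    (a : Fin (n + 1)) : O.TS A i i' s a a = 0 := by
  classical
  unfold OM.TS
  rw [O.fam_slot]
  have hne : (Sum.inl s : Fin e ⊕ Fin e) ≠ Sum.inr s := by simp
  refine O.ω.map_eq_zero_of_eq _ ?_ hne
  rw [Function.update_of_ne hne, Function.update_self, Function.update_self]

end

end Pool.Agent.Edge.H54
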